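import Mathlib

set_option autoImplicit false
open Filter Topology

/-! # The set of limit points of a bounded sequence with small downward steps is an interval -/

namespace Pool.Agent.Y940.Gil

theorem cluster_of_between (u : ℕ → ℝ) (hstep : ∀ ε : ℝ, 0 < ε → ∀ᶠ n in atTop, u n - ε ≤ u (n + 1))
    {x : ℝ} (hlo : ∀ ε : ℝ, 0 < ε → ∃ᶠ n in atTop, u n < x + ε)
    (hhi : ∀ ε : ℝ, 0 < ε → ∃ᶠ n in atTop, x - ε < u n) : MapClusterPt x atTop u := by
  rw [Metric.nhds_basis_ball.mapClusterPt_iff_frequently]
  intro ε hε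
  by_contra hcon
  rw [not_frequently] at hcon
  obtain ⟨N, hN⟩ := eventually_atTop.1 (hcon.and (hstep ε hε))
  have hsep : ∀ n, N ≤ n → x + ε ≤ u n ∨ u n ≤ x - ε := by
    intro n hn
    have h1 := (hN n hn).1
    rw [Metric.mem_ball, Real.dist_eq, not_lt] at h1
    rcases le_abs.1 h1 with h | h
    · left; linarith
    · right; linarith
  by_cases hex : ∃ n, N ≤ n ∧ x + ε ≤ u n
  · obtain ⟨n0, hn0, h0⟩ := hex
    have hall : ∀ n, n0 ≤ n → x + ε ≤ u n := by
      intro n hn
      induction n, hn using Nat.le_induction with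
      | base => exact h0
      | succ n hn ih =>
        rcases hsep (n + 1) (by omega) with h | h
        · exact h
        · have := (hN n (by omega)).2
          linarith
    have := hlo ε hε
    unfold Filter.Frequently at this
    exact this (eventually_atTop.2 ⟨n0, fun n hn => not_lt.2 (hall n hn)⟩)
  · push Not at hex
    have := hhi ε hε
    unfold Filter.Frequently at this
    refine this (eventually_atTop.2 ⟨N, fun n hn => not_lt.2 ?_⟩)
    rcases hsep n hn with h | h
    · exact absurd h (not_le.2 (hex n hn))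
    · exact h

theorem interval (u : ℕ → ℝ) (hstep : ∀ ε : ℝ, 0 < ε → ∀ᶠ n in atTop, u n - ε ≤ u (n + 1))
    {A B : ℝ} (hA : ∀ᶠ n in atTop, A ≤ u n) (hB : ∀ᶠ n in atTop, u n ≤ B) (x : ℝ) :
    MapClusterPt x atTop u ↔ liminf u atTop ≤ x ∧ x ≤ limsup u atTop := by
  have hbA : IsBoundedUnder (· ≥ ·) atTop u := ⟨A, hA⟩
  have hbB : IsBoundedUnder (· ≤ ·) atTop u := ⟨B, hB⟩
  have hcA : IsCoboundedUnder (· ≥ ·) atTop u := hbB.isCoboundedUnder_ge
  have hcB : IsCoboundedUnder (· ≤ ·) atTop u := hbA.isCoboundedUnder_le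
  constructor
  · intro hx
    constructor
    · by_contra hcon
      push Not at hcon
      obtain ⟨y, hy1, hy2⟩ := exists_between hcon
      have h1 := eventually_lt_of_lt_liminf hy2 hbA
      have h2 := hx.frequently (Iio_mem_nhds hy1)
      obtain ⟨n, h3, h4⟩ := (h2.and_eventually h1).exists
      exact lt_asymm h3 h4
    · by_contra hcon
      push Not at hcon
      obtain ⟨y, hy1, hy2⟩ := exists_between hcon
      have h1 := eventually_lt_of_limsup_lt hy1 hbB
      have h2 := hx.frequently (Ioi_mem_nhds hy2)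
      obtain ⟨n, h3, h4⟩ := (h2.and_eventually h1).exists
      exact lt_asymm h3 h4
  · rintro ⟨h1, h2⟩
    refine cluster_of_between u hstep (fun ε hε => ?_) (fun ε hε => ?_)
    · exact frequently_lt_of_liminf_lt hcA (by linarith)
    · exact frequently_lt_of_lt_limsup hcB (by linarith)

end Pool.Agent.Y940.Gil
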