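import Pool.Agent.Y940.Gil.Mono
import Pool.Agent.Y940.Gil.Clus

set_option autoImplicit false
open Finset Filter Topology

/-! # The asymptotic law along `⌊2^(k+t)⌋` -/

namespace Pool.Agent.Y940.Gil
open Pool.Agent.Helper155.Gil

variable {V : ℕ → ℝ}

/-- the index `⌊2^(k+t)⌋` -/
noncomputable def nn (t : ℝ) (k : ℕ) : ℕ := ⌊(2 : ℝ) ^ ((k : ℝ) + t)⌋₊

theorem nn_tendsto (t : ℝ) : Tendsto (nn t) atTop atTop := by
  have h1 : Tendsto (fun k : ℕ => (k : ℝ) + t) atTop atTop :=
    tendsto_atTop_add_const_right _ _ tendsto_natCast_atTop_atTop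
  have h2 : Tendsto (fun x : ℝ => (2 : ℝ) ^ x) atTop atTop :=
    tendsto_rpow_atTop_of_base_gt_one 2 (by norm_num)
  exact tendsto_nat_floor_atTop.comp (h2.comp h1)

theorem nn_mono {s t : ℝ} (h : s ≤ t) (k : ℕ) : nn s k ≤ nn t k :=
  Nat.floor_mono (Real.rpow_le_rpow_of_exponent_le (by norm_num) (by linarith))

theorem nn_shift (t : ℝ) (k : ℕ) : nn (t + 1) k = nn t (k + 1) := by
  unfold nn
  congr 2
  push_cast
  ring

theorem log_nn (t : ℝ) :
    Tendsto (fun k : ℕ => Real.log ((nn t k : ℝ) + 1) - k * Real.log 2) atTop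
      (𝓝 (t * Real.log 2)) := by
  have h3 := Real.tendsto_log_nat_add_one_sub_log.comp (nn_tendsto t)
  have hlow : ∀ k : ℕ, t * Real.log 2 ≤ Real.log ((nn t k : ℝ) + 1) - k * Real.log 2 := by
    intro k
    have h1 : (2 : ℝ) ^ ((k : ℝ) + t) < (nn t k : ℝ) + 1 := Nat.lt_floor_add_one _
    have h2 := Real.log_le_log (by positivity) h1.le
    rw [Real.log_rpow (by norm_num)] at h2
    linarith
  have hup : ∀ᶠ k : ℕ in atTop, Real.log ((nn t k : ℝ) + 1) - k * Real.log 2 ≤
      t * Real.log 2 + (Real.log ((nn t k : ℝ) + 1) - Real.log (nn t k)) := by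
    filter_upwards [(nn_tendsto t).eventually (eventually_ge_atTop 1)] with k hk
    have h1 : (nn t k : ℝ) ≤ (2 : ℝ) ^ ((k : ℝ) + t) := Nat.floor_le (by positivity)
    have h0 : (0 : ℝ) < nn t k := by exact_mod_cast hk
    have h2 := Real.log_le_log h0 h1
    rw [Real.log_rpow (by norm_num)] at h2
    linarith
  have h4 : Tendsto (fun k : ℕ => t * Real.log 2 + (Real.log ((nn t k : ℝ) + 1) -
      Real.log (nn t k))) atTop (𝓝 (t * Real.log 2)) := by
    have := h3.const_add (t * Real.log 2)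
    rw [add_zero] at this
    exact this
  exact tendsto_of_tendsto_of_tendsto_of_le_of_le' tendsto_const_nhds h4
    (Eventually.of_forall hlow) hup

theorem qq_nn (t : ℝ) :
    Tendsto (fun k : ℕ => qq ((nn t k : ℝ) + 1)) atTop (𝓝 (Real.cos (2 * Real.pi * t))) := by
  have hL : Real.log 2 ≠ 0 := (Real.log_pos (by norm_num)).ne'
  have h1 := (((log_nn t).div_const (Real.log 2)).const_mul (2 * Real.pi))
  rw [mul_div_assoc, div_self hL, mul_one] at h1
  have h2 := (Real.continuous_cos.tendsto _).comp h1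
  refine h2.congr fun k => ?_
  simp only [Function.comp]
  unfold qq
  have e : 2 * Real.pi * ((Real.log ((nn t k : ℝ) + 1) - k * Real.log 2) / Real.log 2) =
      2 * Real.pi * (Real.log ((nn t k : ℝ) + 1) / Real.log 2) - k * (2 * Real.pi) := by
    field_simp
  rw [e, Real.cos_sub_nat_mul_two_pi]

theorem wlim_nn (t σ : ℝ) :
    Tendsto (fun k : ℕ => Wf σ ((nn t k : ℝ) + 1) - k * Real.log 2) atTop
      (𝓝 (t * Real.log 2 + c1 + σ * ep0 - A0 * Real.cos (2 * Real.pi * t))) := by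
  have h0 : Tendsto (fun k => ((nn t k : ℝ) + 1)) atTop atTop :=
    tendsto_atTop_add_const_right _ _ (tendsto_natCast_atTop_atTop.comp (nn_tendsto t))
  have h1 := MFin.zz_lim.comp h0
  have h2 := MFin.mm_lim.comp h0
  have h5 := ((h1.add (h2.const_mul σ)).add (log_nn t)).sub ((qq_nn t).const_mul A0)
  have h6 := h5.add_const (c1 + σ * ep0)
  have e : (0 : ℝ) + σ * 0 + t * Real.log 2 - A0 * Real.cos (2 * Real.pi * t) + (c1 + σ * ep0) =
      t * Real.log 2 + c1 + σ * ep0 - A0 * Real.cos (2 * Real.pi * t) := by ring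
  rw [e] at h6
  refine h6.congr fun k => ?_
  simp only [Function.comp]
  unfold Wf
  ring

/-- the sequence `V ⌊2^(k+t)⌋ - k` -/
noncomputable def us (V : ℕ → ℝ) (t : ℝ) (k : ℕ) : ℝ := V (nn t k) - k

theorem us_bounds (hV : IsGilbert V) (t : ℝ) {ε : ℝ} (hε : 0 < ε) :
    ∀ᶠ k : ℕ in atTop,
      (t * Real.log 2 + c1 - ep0 - A0 * Real.cos (2 * Real.pi * t)) / Real.log 2 - ε ≤ us V t k ∧
      us V t k ≤ (t * Real.log 2 + c1 + ep0 - A0 * Real.cos (2 * Real.pi * t)) / Real.log 2 + ε := by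
  have hlog : 0 < Real.log 2 := Real.log_pos (by norm_num)
  have hεl : 0 < ε * Real.log 2 := mul_pos hε hlog
  filter_upwards [(nn_tendsto t).eventually (eventually_ge_atTop 1024),
    (wlim_nn t 1).eventually (eventually_le_nhds (b := t * Real.log 2 + c1 + 1 * ep0 -
      A0 * Real.cos (2 * Real.pi * t) + ε * Real.log 2) (by linarith)),
    (wlim_nn t (-1)).eventually (eventually_ge_nhds (b := t * Real.log 2 + c1 + (-1) * ep0 -
      A0 * Real.cos (2 * Real.pi * t) - ε * Real.log 2) (by linarith))] with k h1 h2 h3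
  obtain ⟨h4, h5⟩ := MMain.two_sided V hV _ h1
  unfold us
  constructor
  · rw [sub_le_iff_le_add, div_le_iff₀ hlog]
    linarith
  · rw [← sub_le_iff_le_add, le_div_iff₀ hlog]
    linarith

theorem us_bddA (hV : IsGilbert V) (t : ℝ) : IsBoundedUnder (· ≤ ·) atTop (us V t) :=
  ⟨_, (us_bounds hV t one_pos).mono fun _ h => h.2⟩

theorem us_bddB (hV : IsGilbert V) (t : ℝ) : IsBoundedUnder (· ≥ ·) atTop (us V t) :=
  ⟨_, (us_bounds hV t one_pos).mono fun _ h => h.1⟩

noncomputable def FF (V : ℕ → ℝ) (t : ℝ) : ℝ := limsup (us V t) atTop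

theorem FF_mono (hV : IsGilbert V) : Monotone (FF V) := by
  intro s t hst
  refine limsup_le_limsup (Eventually.of_forall fun k => ?_)
    (us_bddB hV s).isCoboundedUnder_le (us_bddA hV t)
  have := mono hV (nn_mono hst k)
  unfold us
  linarith

theorem FF_bounds (hV : IsGilbert V) (t : ℝ) :
    |Real.log 2 * (FF V t - t) - c1 + A0 * Real.cos (2 * Real.pi * t)| ≤ ep0 := by
  have hlog : 0 < Real.log 2 := Real.log_pos (by norm_num)
  have h1 : FF V t ≤ (t * Real.log 2 + c1 + ep0 - A0 * Real.cos (2 * Real.pi * t)) / Real.log 2 :=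
    le_of_forall_pos_le_add fun ε hε => limsup_le_of_le (us_bddB hV t).isCoboundedUnder_le
      ((us_bounds hV t hε).mono fun _ h => h.2)
  have h2 : (t * Real.log 2 + c1 - ep0 - A0 * Real.cos (2 * Real.pi * t)) / Real.log 2 ≤ FF V t := by
    refine le_of_forall_pos_le_add fun ε hε => ?_
    have h3 : (t * Real.log 2 + c1 - ep0 - A0 * Real.cos (2 * Real.pi * t)) / Real.log 2 - ε ≤
        FF V t := le_limsup_of_frequently_le
      (((us_bounds hV t hε).mono fun _ h => h.1).frequently) (us_bddA hV t)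
    linarith
  rw [le_div_iff₀ hlog] at h1
  rw [div_le_iff₀ hlog] at h2
  rw [abs_le]
  constructor <;> linarith

theorem FF_shift (hV : IsGilbert V) (t : ℝ) : FF V (t + 1) = FF V t + 1 := by
  have h1 : us V (t + 1) = fun k => us V t (k + 1) + 1 := by
    funext k
    unfold us
    rw [nn_shift]
    push_cast
    ring
  have hA : IsBoundedUnder (· ≤ ·) atTop (fun k => us V t (k + 1)) := by
    obtain ⟨b, hb⟩ := us_bddA hV t
    refine ⟨b, ?_⟩
    rw [eventually_map] at hb ⊢
    exact (tendsto_add_atTop_nat 1).eventually hb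
  have hB : IsBoundedUnder (· ≥ ·) atTop (fun k => us V t (k + 1)) := by
    obtain ⟨b, hb⟩ := us_bddB hV t
    refine ⟨b, ?_⟩
    rw [eventually_map] at hb ⊢
    exact (tendsto_add_atTop_nat 1).eventually hb
  unfold FF
  rw [h1, limsup_add_const atTop (fun k => us V t (k + 1)) 1 hA hB.isCoboundedUnder_le,
    Filter.limsup_nat_add (us V t) 1]

/-- separation by a dyadic rational -/
theorem sep (hV : IsGilbert V) {s t : ℝ} (hst : s < t) : FF V s ≤ liminf (us V t) atTop := by
  have h2 : (2 : ℝ) ^ s < (2 : ℝ) ^ t := Real.rpow_lt_rpow_of_exponent_lt (by norm_num) hst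
  -- a dyadic rational between `2^s` and `2^t`
  obtain ⟨j, hj⟩ := exists_pow_lt_of_lt_one (sub_pos.2 h2) (by norm_num : (1 / 2 : ℝ) < 1)
  have hs0 : (0 : ℝ) < (2 : ℝ) ^ s := by positivity
  set m : ℕ := ⌊(2 : ℝ) ^ s * 2 ^ j⌋₊ + 1 with hm
  have hm1 : 1 ≤ m := by omega
  have hp : (0 : ℝ) < 2 ^ j := by positivity
  have hlo : (2 : ℝ) ^ s * 2 ^ j < m := by
    rw [hm]; push_cast; exact Nat.lt_floor_add_one _
  have hhi : (m : ℝ) ≤ (2 : ℝ) ^ t * 2 ^ j := by
    have h3 : ((⌊(2 : ℝ) ^ s * 2 ^ j⌋₊ : ℕ) : ℝ) ≤ (2 : ℝ) ^ s * 2 ^ j :=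
      Nat.floor_le (by positivity)
    have h4 : (1 : ℝ) < ((2 : ℝ) ^ t - 2 ^ s) * 2 ^ j := by
      have := mul_lt_mul_of_pos_right hj hp
      rw [← mul_pow] at this
      norm_num at this
      linarith
    rw [hm]; push_cast
    nlinarith
  obtain ⟨G, hG, -⟩ := limit_exists hV hm1
  -- compare
  have hcmp : ∀ k, us V s (k + j) ≤ V (ix m k) - k - j ∧ V (ix m k) - k - j ≤ us V t (k + j) := by
    intro k
    have hk : (0 : ℝ) < 2 ^ k := by positivity
    have e : ∀ x : ℝ, (2 : ℝ) ^ (((k + j : ℕ) : ℝ) + x) = (2 : ℝ) ^ x * 2 ^ j * 2 ^ k := by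
      intro x
      rw [Real.rpow_add (by norm_num), Real.rpow_natCast, pow_add]
      ring
    have hix : ((ix m k : ℕ) : ℝ) + 1 = m * 2 ^ k := ix_add hm1 k
    have h5 : nn s (k + j) ≤ ix m k := by
      unfold nn
      rw [e s]
      have : (2 : ℝ) ^ s * 2 ^ j * 2 ^ k < (ix m k : ℕ) + 1 := by
        rw [hix]; exact mul_lt_mul_of_pos_right hlo hk
      have h6 : ⌊(2 : ℝ) ^ s * 2 ^ j * 2 ^ k⌋₊ < ix m k + 1 := by
        rw [Nat.floor_lt (by positivity)]
        push_cast
        exact this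
      omega
    have h6 : ix m k ≤ nn t (k + j) := by
      unfold nn
      rw [e t]
      refine Nat.le_floor ?_
      have : (m : ℝ) * 2 ^ k ≤ (2 : ℝ) ^ t * 2 ^ j * 2 ^ k := mul_le_mul_of_nonneg_right hhi hk.le
      linarith
    have h7 := mono hV h5
    have h8 := mono hV h6
    unfold us
    push_cast
    constructor <;> linarith
  have hG' : Tendsto (fun k : ℕ => V (ix m k) - k - j) atTop (𝓝 (G - j)) := hG.sub_const _
  have h9 : FF V s ≤ G - j := by
    unfold FF
    rw [← Filter.limsup_nat_add (us V s) j, ← hG'.limsup_eq]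
    have hB : IsBoundedUnder (· ≥ ·) atTop (fun k => us V s (k + j)) := by
      obtain ⟨b, hb⟩ := us_bddB hV s
      refine ⟨b, ?_⟩
      rw [eventually_map] at hb ⊢
      exact (tendsto_add_atTop_nat j).eventually hb
    exact limsup_le_limsup (Eventually.of_forall fun k => (hcmp k).1) hB.isCoboundedUnder_le
      hG'.isBoundedUnder_le
  have h10 : G - j ≤ liminf (us V t) atTop := by
    rw [← Filter.liminf_nat_add (us V t) j, ← hG'.liminf_eq]
    have hA : IsBoundedUnder (· ≤ ·) atTop (fun k => us V t (k + j)) := by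
      obtain ⟨b, hb⟩ := us_bddA hV t
      refine ⟨b, ?_⟩
      rw [eventually_map] at hb ⊢
      exact (tendsto_add_atTop_nat j).eventually hb
    exact liminf_le_liminf (Eventually.of_forall fun k => (hcmp k).2)
      hG'.isBoundedUnder_ge hA.isCoboundedUnder_ge
  exact h9.trans h10

theorem conv (hV : IsGilbert V) {t : ℝ} (ht : ContinuousAt (FF V) t) :
    Tendsto (us V t) atTop (𝓝 (FF V t)) := by
  refine tendsto_of_le_liminf_of_limsup_le ?_ le_rfl (us_bddA hV t) (us_bddB hV t)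
  refine le_of_forall_pos_lt_add fun ε hε => ?_
  have h1 : ∀ᶠ s in 𝓝 t, FF V t - ε < FF V s := ht.eventually (lt_mem_nhds (by linarith))
  have h2 : ∀ᶠ s in 𝓝[<] t, FF V t - ε < FF V s := h1.filter_mono nhdsWithin_le_nhds
  obtain ⟨s, hs, hs2⟩ := (h2.and self_mem_nhdsWithin).exists
  have := sep hV (s := s) (t := t) hs2
  linarith

theorem countable_bad (hV : IsGilbert V) :
    {t : ℝ | ¬ Tendsto (us V t) atTop (𝓝 (FF V t))}.Countable :=
  (FF_mono hV).countable_not_continuousAt.mono fun _ ht hc => ht (conv hV hc)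

end Pool.Agent.Y940.Gil
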