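import Pool.Agent.Helper155.Gil.Main

set_option autoImplicit false
open Finset Filter Topology

/-! # Monotonicity of the values, doubling, limits along `m 2^k - 1` -/

namespace Pool.Agent.Y940.Gil
open Pool.Agent.Helper155.Gil

variable {V : ℕ → ℝ}

theorem hU (hV : IsGilbert V) : ∀ n, 1 ≤ n → ∀ p ∈ Mixed n, ∀ M : ℝ,
    (∀ h ∈ Icc 1 n, ∑ g ∈ Icc 1 n, p g * pay V n g h ≤ M) → V n ≤ M :=
  fun n hn => (MMinimax.isValue_weak (hV.2 n hn)).1

theorem hL (hV : IsGilbert V) : ∀ n, 1 ≤ n → ∀ r ∈ Mixed n, ∀ M : ℝ,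
    (∀ g ∈ Icc 1 n, M ≤ ∑ h ∈ Icc 1 n, r h * pay V n g h) → M ≤ V n :=
  fun n hn => (MMinimax.isValue_weak (hV.2 n hn)).2

/-- the values are nondecreasing -/
theorem le_succ (hV : IsGilbert V) (n : ℕ) : V n ≤ V (n + 1) := by
  induction n using Nat.strong_induction_on with
  | _ n ih =>
    rcases Nat.eq_zero_or_pos n with rfl | hn
    · rw [hV.1]
      refine hL hV 1 le_rfl (fun i => if i = 1 then 1 else 0)
        ⟨fun i => by dsimp only; split_ifs <;> norm_num, by simp⟩ 0 ?_
      intro g hg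
      have h1 : g = 1 := by rw [mem_Icc] at hg; omega
      subst h1
      simp [pay]
    · obtain ⟨r, ⟨hr0, hr1⟩, hr⟩ := (hV.2 n hn).2
      refine hL hV (n + 1) (by omega) (fun i => if i ≤ n then r i else 0) ⟨?_, ?_⟩ (V n) ?_
      · intro i
        dsimp only
        split_ifs
        · exact hr0 i
        · exact le_rfl
      · rw [Finset.sum_Icc_succ_top (by omega), if_neg (by omega), add_zero, ← hr1]
        exact Finset.sum_congr rfl fun i hi => by rw [if_pos (mem_Icc.1 hi).2]
      · intro g hg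
        rw [Finset.sum_Icc_succ_top (by omega), if_neg (by omega), zero_mul, add_zero]
        have hsum : ∑ h ∈ Icc 1 n, (if h ≤ n then r h else 0) * pay V (n + 1) g h =
            ∑ h ∈ Icc 1 n, r h * pay V (n + 1) g h :=
          Finset.sum_congr rfl fun i hi => by rw [if_pos (mem_Icc.1 hi).2]
        rw [hsum]
        rcases Nat.lt_or_ge n g with h | h
        · have hg' : g = n + 1 := by rw [mem_Icc] at hg; omega
          have h2 : ∑ h ∈ Icc 1 n, r h * pay V (n + 1) g h = 1 + V n := by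
            have h3 : ∑ h ∈ Icc 1 n, r h * pay V (n + 1) g h = ∑ h ∈ Icc 1 n, r h * (1 + V n) := by
              refine Finset.sum_congr rfl fun i hi => ?_
              rw [mem_Icc] at hi
              unfold pay
              rw [if_neg (by omega), if_pos (by omega), hg', Nat.add_sub_cancel]
            rw [h3, ← Finset.sum_mul, hr1, one_mul]
          linarith
        · refine (hr g (mem_Icc.2 ⟨(mem_Icc.1 hg).1, h⟩)).trans
            (Finset.sum_le_sum fun i hi => ?_)
          refine mul_le_mul_of_nonneg_left ?_ (hr0 i)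
          unfold pay
          split_ifs
          · exact le_rfl
          · exact le_rfl
          · have e : n + 1 - g = (n - g) + 1 := by omega
            rw [e]
            have := ih (n - g) (by rw [mem_Icc] at hg; omega)
            linarith

theorem mono (hV : IsGilbert V) : Monotone V := monotone_nat_of_le_succ (le_succ hV)

theorem nonneg (hV : IsGilbert V) (n : ℕ) : 0 ≤ V n := by
  rw [← hV.1]
  exact mono hV (Nat.zero_le n)

theorem double (hV : IsGilbert V) (n : ℕ) : V (2 * n + 1) ≤ V n + 1 := by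
  have h0 : 0 ≤ V n := nonneg hV n
  refine hU hV (2 * n + 1) (by omega) (fun i => if i = n + 1 then 1 else 0)
    ⟨fun i => by dsimp only; split_ifs <;> norm_num, ?_⟩ _ ?_
  · rw [Finset.sum_ite_eq' (Icc 1 (2 * n + 1)) (n + 1) (fun _ => (1 : ℝ)),
      if_pos (mem_Icc.2 ⟨by omega, by omega⟩)]
  · intro h hh
    have h1 : ∑ g ∈ Icc 1 (2 * n + 1), (if g = n + 1 then (1 : ℝ) else 0) * pay V (2 * n + 1) g h =
        pay V (2 * n + 1) (n + 1) h := by
      simp only [ite_mul, one_mul, zero_mul]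
      rw [Finset.sum_ite_eq' (Icc 1 (2 * n + 1)) (n + 1) (fun g => pay V (2 * n + 1) g h),
        if_pos (mem_Icc.2 ⟨by omega, by omega⟩)]
    rw [h1]
    unfold pay
    split_ifs
    · linarith
    · rw [Nat.add_sub_cancel]; linarith
    · have : 2 * n + 1 - (n + 1) = n := by omega
      rw [this]; linarith

/-- the index `m 2^k - 1` -/
def ix (m k : ℕ) : ℕ := m * 2 ^ k - 1

theorem ix_add {m : ℕ} (hm : 1 ≤ m) (k : ℕ) : ((ix m k : ℕ) : ℝ) + 1 = m * 2 ^ k := by
  have h0 : 1 ≤ m * 2 ^ k := Nat.mul_pos hm (by positivity)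
  have h : ix m k + 1 = m * 2 ^ k := by unfold ix; omega
  exact_mod_cast h

theorem ix_succ {m : ℕ} (hm : 1 ≤ m) (k : ℕ) : ix m (k + 1) = 2 * ix m k + 1 := by
  have h0 : 1 ≤ m * 2 ^ k := Nat.mul_pos hm (by positivity)
  unfold ix
  rw [pow_succ, ← mul_assoc]
  omega

theorem ix_tendsto {m : ℕ} (hm : 1 ≤ m) : Tendsto (ix m) atTop atTop := by
  refine tendsto_atTop_mono (fun j => ?_) tendsto_id
  have h1 : j < 2 ^ j := Nat.lt_two_pow_self
  have h2 : 2 ^ j ≤ m * 2 ^ j := Nat.le_mul_of_pos_left _ hm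
  simp only [id]
  unfold ix
  omega

theorem qq_ix {m : ℕ} (hm : 1 ≤ m) (k : ℕ) : qq ((ix m k : ℝ) + 1) = qq m := by
  rw [ix_add hm]
  unfold qq
  have hL : Real.log 2 ≠ 0 := (Real.log_pos (by norm_num)).ne'
  have hm0 : (m : ℝ) ≠ 0 := by
    have : (0 : ℝ) < m := by exact_mod_cast hm
    exact this.ne'
  rw [Real.log_mul hm0 (by positivity), Real.log_pow, add_div, mul_div_assoc,
    div_self hL, mul_one, mul_add, mul_comm (2 * Real.pi) (k : ℝ)]
  exact Real.cos_add_nat_mul_two_pi _ k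

/-- the sequence `V (m 2^k - 1) - k` is nonincreasing -/
theorem anti (hV : IsGilbert V) {m : ℕ} (hm : 1 ≤ m) : Antitone fun k : ℕ => V (ix m k) - k := by
  refine antitone_nat_of_succ_le fun k => ?_
  rw [ix_succ hm]
  have := double hV (ix m k)
  push_cast
  linarith

/-- two-sided limits of the explicit bounds along `ix m` -/
theorem wlim {m : ℕ} (hm : 1 ≤ m) (σ : ℝ) :
    Tendsto (fun k : ℕ => Wf σ ((ix m k : ℝ) + 1) - k * Real.log 2) atTop
      (𝓝 (Real.log m + (c1 + σ * ep0 - A0 * qq m))) := by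
  have h1 := MFin.W_lim σ (qq m) (ix m) (ix_tendsto hm) (qq_ix hm)
  have h2 := (Real.tendsto_log_nat_add_one_sub_log.comp (ix_tendsto hm))
  have h3 := (h1.sub h2).const_add (Real.log m)
  rw [sub_zero] at h3
  refine h3.congr fun k => ?_
  simp only [Function.comp]
  have hm0 : (m : ℝ) ≠ 0 := by
    have : (0 : ℝ) < m := by exact_mod_cast hm
    exact this.ne'
  have e : Real.log ((ix m k : ℝ) + 1) = Real.log m + k * Real.log 2 := by
    rw [ix_add hm, Real.log_mul hm0 (by positivity), Real.log_pow]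
  linarith

theorem limit_exists (hV : IsGilbert V) {m : ℕ} (hm : 1 ≤ m) :
    ∃ G : ℝ, Tendsto (fun k : ℕ => V (ix m k) - k) atTop (𝓝 G) ∧
      |Real.log 2 * G - Real.log m - c1 + A0 * qq m| ≤ ep0 := by
  have hlog : 0 < Real.log 2 := Real.log_pos (by norm_num)
  have hup : ∀ᶠ k : ℕ in atTop, Real.log 2 * (V (ix m k) - k) ≤
      Wf 1 ((ix m k : ℝ) + 1) - k * Real.log 2 := by
    filter_upwards [(ix_tendsto hm).eventually (eventually_ge_atTop 1024)] with k hk
    have := (MMain.two_sided V hV _ hk).2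
    linarith
  have hlo : ∀ᶠ k : ℕ in atTop, Wf (-1) ((ix m k : ℝ) + 1) - k * Real.log 2 ≤
      Real.log 2 * (V (ix m k) - k) := by
    filter_upwards [(ix_tendsto hm).eventually (eventually_ge_atTop 1024)] with k hk
    have := (MMain.two_sided V hV _ hk).1
    linarith
  -- bounded below
  obtain ⟨B, hB⟩ : ∃ B : ℝ, ∀ᶠ k : ℕ in atTop, B ≤ V (ix m k) - k := by
    have h1 := wlim hm (-1)
    have h2 := h1.eventually (eventually_ge_nhds (b := Real.log m + (c1 + (-1) * ep0 - A0 * qq m) - 1)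
      (by linarith))
    refine ⟨(Real.log m + (c1 + (-1) * ep0 - A0 * qq m) - 1) / Real.log 2, ?_⟩
    filter_upwards [h2, hlo] with k h3 h4
    rw [div_le_iff₀ hlog]
    linarith
  have hbdd : BddBelow (Set.range fun k : ℕ => V (ix m k) - k) := by
    refine ⟨B, ?_⟩
    rintro _ ⟨k, rfl⟩
    obtain ⟨K, hK⟩ := eventually_atTop.1 hB
    exact (hK (max k K) (le_max_right _ _)).trans (anti hV hm (le_max_left k K))
  have hlim := tendsto_atTop_ciInf (anti hV hm) hbdd
  refine ⟨_, hlim, ?_⟩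
  have h5 := hlim.const_mul (Real.log 2)
  have h6 := le_of_tendsto_of_tendsto h5 (wlim hm 1) hup
  have h7 := le_of_tendsto_of_tendsto (wlim hm (-1)) h5 hlo
  rw [abs_le]
  constructor <;> linarith

end Pool.Agent.Y940.Gil
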