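import Pool.Agent.Y940.Gil.Lim

set_option autoImplicit false
open Finset Filter Topology

/-! # The limit points of `V(n) - log₂ n` -/

namespace Pool.Agent.Y940.Gil
open Pool.Agent.Helper155.Gil

variable {V : ℕ → ℝ}

/-- the sequence of the problem -/
noncomputable def uu (V : ℕ → ℝ) (n : ℕ) : ℝ := V n - Real.logb 2 n

theorem uu_step (hV : IsGilbert V) (ε : ℝ) (hε : 0 < ε) : ∀ᶠ n in atTop, uu V n - ε ≤ uu V (n + 1) := by
  have hlog : 0 < Real.log 2 := Real.log_pos (by norm_num)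
  have h1 := Real.tendsto_log_nat_add_one_sub_log.eventually
    (eventually_le_nhds (b := ε * Real.log 2) (mul_pos hε hlog))
  filter_upwards [h1] with n hn
  have h2 := le_succ hV n
  unfold uu Real.logb
  push_cast
  have h3 : Real.log ((n : ℝ) + 1) / Real.log 2 - Real.log n / Real.log 2 ≤ ε := by
    rw [← sub_div, div_le_iff₀ hlog]
    exact hn
  linarith

theorem uu_bounds (hV : IsGilbert V) (ε : ℝ) (hε : 0 < ε) : ∀ᶠ n in atTop,
    (c1 - A0 - ep0) / Real.log 2 - ε ≤ uu V n ∧ uu V n ≤ (c1 + A0 + ep0) / Real.log 2 + ε := by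
  have hlog : 0 < Real.log 2 := Real.log_pos (by norm_num)
  have hε3 : 0 < ε * Real.log 2 / 3 := by positivity
  have h0 : Tendsto (fun n : ℕ => ((n : ℝ) + 1)) atTop atTop :=
    tendsto_atTop_add_const_right _ _ tendsto_natCast_atTop_atTop
  obtain ⟨N1, hN1⟩ := (Metric.tendsto_atTop.1 (MFin.zz_lim.comp h0)) _ hε3
  obtain ⟨N2, hN2⟩ := (Metric.tendsto_atTop.1 (MFin.mm_lim.comp h0)) _ hε3
  obtain ⟨N3, hN3⟩ := (Metric.tendsto_atTop.1 Real.tendsto_log_nat_add_one_sub_log) _ hε3
  filter_upwards [eventually_ge_atTop N1, eventually_ge_atTop N2, eventually_ge_atTop N3,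
    eventually_ge_atTop 1024] with n g1 g2 g3 g4
  have a1 := hN1 n g1
  have a2 := hN2 n g2
  have a3 := hN3 n g3
  rw [Real.dist_eq, sub_zero, abs_lt] at a1 a2 a3
  simp only [Function.comp] at a1 a2
  obtain ⟨b1, b2⟩ := MMain.two_sided V hV n g4
  unfold Wf at b1 b2
  have hq : |qq ((n : ℝ) + 1)| ≤ 1 := by unfold qq; exact Real.abs_cos_le_one _
  rw [abs_le] at hq
  have hA00 : 0 < A0 := by unfold A0; norm_num
  have hA : A0 * qq ((n : ℝ) + 1) ≤ A0 := by nlinarith [hq.2]
  have hA' : -A0 ≤ A0 * qq ((n : ℝ) + 1) := by nlinarith [hq.1]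
  have key : uu V n = (Real.log 2 * V n - Real.log n) / Real.log 2 := by
    unfold uu Real.logb
    field_simp
  rw [key]
  constructor
  · rw [sub_le_iff_le_add, div_le_iff₀ hlog, add_mul, div_mul_cancel₀ _ hlog.ne']
    linarith [a1.1, a2.2, a3.1, b1]
  · rw [← sub_le_iff_le_add, le_div_iff₀ hlog, sub_mul, div_mul_cancel₀ _ hlog.ne']
    linarith [a1.2, a2.2, a3.2, b2]

theorem uu_nn (hV : IsGilbert V) (t : ℝ) {ε : ℝ} (hε : 0 < ε) : ∀ᶠ k in atTop,
    (c1 - ep0 - A0 * Real.cos (2 * Real.pi * t)) / Real.log 2 - ε ≤ uu V (nn t k) ∧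
    uu V (nn t k) ≤ (c1 + ep0 - A0 * Real.cos (2 * Real.pi * t)) / Real.log 2 + ε := by
  have hlog : 0 < Real.log 2 := Real.log_pos (by norm_num)
  have h1 := (log_nn t).sub (Real.tendsto_log_nat_add_one_sub_log.comp (nn_tendsto t))
  rw [sub_zero] at h1
  have hε2 : 0 < ε / 2 * Real.log 2 := by positivity
  filter_upwards [us_bounds hV t (half_pos hε),
    h1.eventually (eventually_le_nhds (b := t * Real.log 2 + ε / 2 * Real.log 2) (by linarith)),
    h1.eventually (eventually_ge_nhds (b := t * Real.log 2 - ε / 2 * Real.log 2) (by linarith))]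
    with k h2 h3 h4
  simp only [Function.comp] at h3 h4
  have h5 : Real.logb 2 (nn t k) ≤ t + k + ε / 2 := by
    unfold Real.logb
    rw [div_le_iff₀ hlog]
    linarith
  have h6 : t + k - ε / 2 ≤ Real.logb 2 (nn t k) := by
    unfold Real.logb
    rw [le_div_iff₀ hlog]
    linarith
  obtain ⟨h7, h8⟩ := h2
  unfold us at h7 h8
  have e1 : (t * Real.log 2 + c1 - ep0 - A0 * Real.cos (2 * Real.pi * t)) / Real.log 2 =
      t + (c1 - ep0 - A0 * Real.cos (2 * Real.pi * t)) / Real.log 2 := by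
    field_simp
    ring
  have e2 : (t * Real.log 2 + c1 + ep0 - A0 * Real.cos (2 * Real.pi * t)) / Real.log 2 =
      t + (c1 + ep0 - A0 * Real.cos (2 * Real.pi * t)) / Real.log 2 := by
    field_simp
    ring
  rw [e1] at h7
  rw [e2] at h8
  unfold uu
  constructor <;> linarith

theorem bddA (hV : IsGilbert V) : IsBoundedUnder (· ≤ ·) atTop (uu V) :=
  ⟨_, (uu_bounds hV 1 one_pos).mono fun _ h => h.2⟩

theorem bddB (hV : IsGilbert V) : IsBoundedUnder (· ≥ ·) atTop (uu V) :=
  ⟨_, (uu_bounds hV 1 one_pos).mono fun _ h => h.1⟩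

theorem limsup_lower (hV : IsGilbert V) : (c1 - ep0 + A0) / Real.log 2 ≤ limsup (uu V) atTop := by
  refine le_of_forall_pos_le_add fun ε hε => ?_
  have h1 : ∃ᶠ n in atTop, (c1 - ep0 - A0 * Real.cos (2 * Real.pi * (1 / 2))) / Real.log 2 - ε ≤
      uu V n := (nn_tendsto (1 / 2)).frequently
    (((uu_nn hV (1 / 2) hε).mono fun _ h => h.1).frequently)
  have h2 := le_limsup_of_frequently_le h1 (bddA hV)
  have h3 : Real.cos (2 * Real.pi * (1 / 2)) = -1 := by
    rw [show 2 * Real.pi * (1 / 2) = Real.pi by ring, Real.cos_pi]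
  rw [h3] at h2
  have e : c1 - ep0 - A0 * (-1) = c1 - ep0 + A0 := by ring
  rw [e] at h2
  linarith

theorem liminf_upper (hV : IsGilbert V) : liminf (uu V) atTop ≤ (c1 + ep0 - A0) / Real.log 2 := by
  refine le_of_forall_pos_le_add fun ε hε => ?_
  have h1 : ∃ᶠ n in atTop, uu V n ≤
      (c1 + ep0 - A0 * Real.cos (2 * Real.pi * 0)) / Real.log 2 + ε := (nn_tendsto 0).frequently
    (((uu_nn hV 0 hε).mono fun _ h => h.2).frequently)
  have h2 := liminf_le_of_frequently_le h1 (bddB hV)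
  rw [mul_zero, Real.cos_zero, mul_one] at h2
  exact h2

theorem limsup_upper (hV : IsGilbert V) : limsup (uu V) atTop ≤ (c1 + A0 + ep0) / Real.log 2 :=
  le_of_forall_pos_le_add fun ε hε => limsup_le_of_le (bddB hV).isCoboundedUnder_le
    ((uu_bounds hV ε hε).mono fun _ h => h.2)

theorem liminf_lower (hV : IsGilbert V) : (c1 - A0 - ep0) / Real.log 2 ≤ liminf (uu V) atTop := by
  refine le_of_forall_pos_le_add fun ε hε => ?_
  have := le_liminf_of_le (bddA hV).isCoboundedUnder_ge ((uu_bounds hV ε hε).mono fun _ h => h.1)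
  linarith

theorem points (hV : IsGilbert V) (x : ℝ) :
    MapClusterPt x atTop (uu V) ↔ liminf (uu V) atTop ≤ x ∧ x ≤ limsup (uu V) atTop :=
  interval (uu V) (uu_step hV) ((uu_bounds hV 1 one_pos).mono fun _ h => h.1)
    ((uu_bounds hV 1 one_pos).mono fun _ h => h.2) x

theorem width (hV : IsGilbert V) :
    66 / 10 ^ 12 < limsup (uu V) atTop - liminf (uu V) atTop ∧
    limsup (uu V) atTop - liminf (uu V) atTop < 13 / 10 ^ 10 := by
  have h1 := limsup_lower hV
  have h2 := liminf_upper hV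
  have h3 := limsup_upper hV
  have h4 := liminf_lower hV
  have d9 := Real.log_two_gt_d9
  have d9' := Real.log_two_lt_d9
  have hlog : 0 < Real.log 2 := Real.log_pos (by norm_num)
  rw [div_le_iff₀ hlog] at h1
  rw [le_div_iff₀ hlog] at h2
  rw [le_div_iff₀ hlog] at h3
  rw [div_le_iff₀ hlog] at h4
  have hA0 : A0 = 23 / 10 ^ 11 := rfl
  have hep : ep0 = 207 / 10 ^ 12 := rfl
  rw [hA0, hep] at h1 h2 h3 h4
  constructor
  · by_contra hcon
    push Not at hcon
    nlinarith
  · by_contra hcon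
    push Not at hcon
    nlinarith

end Pool.Agent.Y940.Gil
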